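import Pool.Agent.H373Z.AQ.Model

set_option autoImplicit false

namespace Pool.Agent.Results.MP_242378_al.AContractible

open Pool.Agent.H373Z.AQ

/-- For every field `F` (in particular for every finite field), the set of invertible elements
of the rank metric completion `MF F` of the union of the matrix rings of size `2 ^ n` over `F`,
with the topology given by the metric, is contractible. -/
theorem result (F : Type) [Field F] : ContractibleSpace {x : MF F // IsUnit x} :=
  contractible_AF F

end Pool.Agent.Results.MP_242378_al.AContractible
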